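import Mathlib
import Pool.Agent.Helper99.ETK.Lam
import Pool.Agent.Helper29.ETK.Win
import Pool.Agent.Helper16.ETL.Body

/-!
# E-T (MP_12a1af_nt), project T*: the number of regions of one time
-/

open Finset

namespace Pool.Agent.Helper99.ETK

open Pool.Agent.Helper29.ETK
open Pool.Agent.ETS (runs runs_of_le runs_of_lt rend lt_rend rend_le rend_spec of_lt_rend isRun_of_mem'
  IsRun KidOK toRegs body)

section

variable {α : Type*} [DecidableEq α] {φ : ℕ → α}

/-- equal values are taken on intervals -/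
def Conv (φ : ℕ → α) (w : ℕ) : Prop :=
  ∀ u x y, u ≤ x → x ≤ y → y < w → φ u = φ y → φ x = φ u

lemma runs_fst_nodup {w : ℕ} (hφ : Conv φ w) : ∀ (n u : ℕ), w - u ≤ n →
    ((runs φ w u).map Prod.fst).Nodup
  | 0, u, hn => by
    rw [runs_of_le φ (by omega)]
    simp
  | n + 1, u, hn => by
    rcases lt_or_ge u w with hlt | hge
    · rw [runs_of_lt φ hlt, List.map_cons, List.nodup_cons]
      have h3 := lt_rend φ u w
      refine ⟨?_, runs_fst_nodup hφ n _ (by omega)⟩
      intro hmem
      rw [List.mem_map] at hmem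
      obtain ⟨q, hq, hq1⟩ := hmem
      obtain ⟨h5, h6, h7, h8, -⟩ := isRun_of_mem' φ hq
      have h9 : φ q.2.1 = φ u := by
        rw [h8 q.2.1 le_rfl h6, hq1]
      have h10 : φ (rend φ u w) = φ u :=
        hφ u _ q.2.1 h3.le h5 (by omega) h9.symm
      rcases rend_spec φ u w with h11 | h11
      · omega
      · exact h11 h10
    · rw [runs_of_le φ hge]
      simp

lemma runs_fst_subset {w u : ℕ} : ∀ a ∈ (runs φ w u).map Prod.fst, a ∈ (range w).image φ := by
  intro a ha
  rw [List.mem_map] at ha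
  obtain ⟨q, hq, rfl⟩ := ha
  obtain ⟨h5, h6, h7, h8, -⟩ := isRun_of_mem' φ hq
  rw [mem_image]
  exact ⟨q.2.1, mem_range.mpr (by omega), h8 q.2.1 le_rfl h6⟩

/-- the number of runs is at most the number of values -/
lemma runs_length_le {w u : ℕ} (hφ : Conv φ w) :
    (runs φ w u).length ≤ ((range w).image φ).card := by
  have h1 : ((runs φ w u).map Prod.fst).toFinset ⊆ (range w).image φ := by
    intro a ha
    exact runs_fst_subset a (List.mem_toFinset.mp ha)
  have h2 := List.toFinset_card_of_nodup (runs_fst_nodup hφ _ u le_rfl)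
  rw [List.length_map] at h2
  rw [← h2]
  exact card_le_card h1

end

variable {c : ℕ}

lemma kid_conv {t : ℕ} (H : KidOK c t) : Conv (kid c t) (wb c t) := by
  intro u x y h1 h2 h3 h4
  generalize hk : kid c t y = k at h4
  cases k with
  | P g =>
    obtain ⟨h5, h6⟩ := H.P y g h3 hk
    obtain ⟨h7, -⟩ := H.P u g (by omega) h4
    rw [h4]
    exact h6 x (by omega) h2
  | PT g b =>
    obtain ⟨-, h5, h6, -, -, h7, -⟩ := H.PT y g b h3 hk
    obtain ⟨-, h8, -⟩ := H.PT u g b (by omega) h4
    rw [h4]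
    exact h7 x (by omega) (by omega)
  | R v =>
    obtain ⟨h5, -, -⟩ := H.R y v h3 hk
    obtain ⟨-, -, h6⟩ := H.R u v (by omega) h4
    rw [h4]
    exact h6 x h1 (by omega)
  | RT v =>
    obtain ⟨h5, -, -⟩ := H.RT y v h3 hk
    obtain ⟨-, -, h6⟩ := H.RT u v (by omega) h4
    rw [h4]
    exact h6 x h1 (by omega)
  | RTh v =>
    obtain ⟨h5, -, -⟩ := H.RTh y v h3 hk
    obtain ⟨-, -, h6⟩ := H.RTh u v (by omega) h4
    rw [h4]
    exact h6 x h1 (by omega)

/-- the `n` largest multiples of `CC c ^ l` below `t` -/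
def lastM (c n l t : ℕ) : Finset ℕ := (range n).image (fun i => CC c ^ l * (t / CC c ^ l - i))

lemma mem_lastM {n l t x : ℕ} (hx : CC c ^ l ∣ x) (h1 : x ≤ t) (h2 : t < x + n * CC c ^ l) :
    x ∈ lastM c n l t := by
  obtain ⟨k, rfl⟩ := hx
  have hp := pow_pos' c l
  unfold lastM
  rw [mem_image]
  have h3 : k ≤ t / CC c ^ l := (Nat.le_div_iff_mul_le hp).mpr (by rw [mul_comm]; exact h1)
  have h4 : t / CC c ^ l < k + n := by
    rw [Nat.div_lt_iff_lt_mul hp]
    calc t < CC c ^ l * k + n * CC c ^ l := h2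
      _ = (k + n) * CC c ^ l := by ring
  refine ⟨t / CC c ^ l - k, mem_range.mpr (by omega), ?_⟩
  congr 1
  omega

lemma card_lastM (n l t : ℕ) : (lastM c n l t).card ≤ n := by
  refine card_image_le.trans ?_
  rw [card_range]

/-- a `P` region is recent -/
lemma P_recent (hc : 10 ≤ c) {t s g : ℕ} (ht : 6 ≤ epo c t) (h : IsPk g (kid c t s))
    (hg : 0 < g) (hs : s ≤ t) :
    ∃ l, l ≤ lg c t ∧ g ∈ lastM c 3 l t := by
  obtain ⟨t0, l, h0, h1, h2, h3, h15, h4, h5, h6, h7, h8, -, -⟩ := bottom_P hc ht h hg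
  obtain ⟨ht0, hle, hG, hE⟩ := epo_of_tm hc ht h0
  have hlate := late_of_not_exD hc ht0 (by omega) hG hE (by omega) h2 h3 h7
  have hl1 : 2 ≤ l := by unfold j0 at h2; omega
  have h9 : Dt c l g ≤ g + 2 * CC c ^ l + 7 * CC c ^ (l - 1) := by
    have := Dt_le_cell (c := c) hc (l := l) (b := g) (by omega)
    rw [gl_eq (g := g) h1 le_rfl (by have := pow_pos' c l; omega)] at this
    exact this
  have h10 : Wd c g ≤ CC c ^ (l - 1) := pow_le c (by unfold j0 at h2; omega)
  have h11 := pow_pred_le (c := c) hc (l := l) (by omega)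
  exact ⟨l, h3.trans (lg_mono (by omega)), mem_lastM h1 (by omega) (by omega)⟩

/-- an `R` region is recent (levels at which the next event has the next level) -/
lemma R_recent1 (hc : 10 ≤ c) {t b : ℕ} (ht : 6 ≤ epo c t) (hu : un c b = b)
    (h15 : 15 ≤ lg c b) (hlt : lev c t b ≤ lg c b) (hj : j0 c b ≤ lev c t b)
    (h4 : va c t b ≤ t) :
    ∃ l, l ≤ lg c t ∧ va c t b ∈ lastM c 7 l t := by
  have hj0 : ep c b + 8 ≤ lev c t b := hj
  set v := va c t b with h3
  set l := lev c t b with hl
  have hnU : ¬ exU c t (l + 1) b := by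
    intro hU
    have := (exU_iff hc (by omega) hu (by omega) (by omega) (by omega)).mp hU
    omega
  have hlate := late_of_not_exU hc (t0 := t) (K := t) (by omega) (by omega) (by omega) (by omega)
    (by omega) (by omega) hnU
  have hepl : ep c b ≤ l := by omega
  have hpl := pow_pos' c l
  have hvl : v = gl c l b + CC c ^ l := rfl
  have hbv : b + Wd c b ≤ v := by
    rw [hvl]
    exact un_add_le hu hepl
  have h5 : Ut c (l + 1) b ≤ v + 6 * CC c ^ l := by
    unfold Ut
    simp only [Nat.add_sub_cancel]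
    have h6 : b + Wd c b - gl c (l + 1) b ≤ CC c ^ (l + 1) := by
      have := un_add_le (c := c) (l := l + 1) (b := b) hu (by omega)
      omega
    have h7 : (b + Wd c b - gl c (l + 1) b) / CC c ≤ CC c ^ l := by
      calc (b + Wd c b - gl c (l + 1) b) / CC c ≤ CC c ^ (l + 1) / CC c := Nat.div_le_div_right h6
        _ = CC c ^ l := by
          rw [pow_succ, Nat.mul_div_cancel _ (CC_pos c)]
    have h8 := gl_le c (l + 1) b
    unfold sl
    omega
  have h10 : Wd c b ≤ CC c ^ l := pow_le c hepl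
  have hvd : CC c ^ l ∣ v := by
    rw [hvl]
    exact (dvd_gl _ _ _).add dvd_rfl
  have hst : b ≤ t := by omega
  exact ⟨l, hlt.trans (lg_mono hst), mem_lastM hvd (by omega) (by omega)⟩

/-- the tops of the small newborn cells -/
def smallV (c t : ℕ) : Finset ℕ :=
  (range (CC c)).image (fun i => CC c ^ (3 * ep c t) + CC c ^ (ep c t + 7) * (i + 1))

/-- the small newborn cells -/
lemma R_recent2 (hc : 10 ≤ c) {t b : ℕ} (ht : 6 ≤ epo c t) (hu : un c b = b)
    (h15 : 15 ≤ lg c b) (hj : lev c t b = jn c b) (hjj : jn c b < j0 c b) (hbt : b ≤ t) :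
    va c t b ∈ smallV c t := by
  have hb0 : b ≠ 0 := by rintro rfl; simp [lg] at h15
  have hlt : b < CC c ^ (3 * ep c b) + CC c ^ j0 c b := by
    by_contra hn
    unfold jn at hjj
    rw [if_neg hn] at hjj
    omega
  have hjn : jn c b = ep c b + 7 := by
    unfold jn
    rw [if_pos hlt]
    rfl
  have hj0 : j0 c b = ep c b + 8 := rfl
  have hlow : CC c ^ (3 * ep c b) ≤ b := le_pow_lg_div c hb0
  have hep5 : 5 ≤ ep c b := by unfold ep; omega
  have hnU : ¬ exU c t (j0 c b + 1) b := by
    intro hU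
    have := (exU_iff hc (by omega) hu (by omega) (by omega) (by
      have := j0_le_lg (c := c) (b := b) (by omega); omega)).mp hU
    omega
  have hlate := late_of_not_exU hc (t0 := t) (K := t) (by omega) (by omega) (by omega) (by omega)
    (by omega) (by have := j0_le_lg (c := c) (b := b) (by omega); omega) hnU
  -- the epoch of `t`
  have h5 : Ut c (j0 c b + 1) b ≤ CC c ^ (3 * ep c b) + 9 * CC c ^ j0 c b := by
    unfold Ut
    simp only [Nat.add_sub_cancel]
    have h6 := un_add_le (c := c) (l := j0 c b + 1) (b := b) hu (by omega)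
    have h7 : (b + Wd c b - gl c (j0 c b + 1) b) / CC c ≤ CC c ^ j0 c b := by
      calc (b + Wd c b - gl c (j0 c b + 1) b) / CC c ≤ CC c ^ (j0 c b + 1) / CC c :=
            Nat.div_le_div_right (by omega)
        _ = CC c ^ j0 c b := by
          rw [pow_succ, Nat.mul_div_cancel _ (CC_pos c)]
    have h8 := gl_le c (j0 c b + 1) b
    have h9 : Wd c b ≤ CC c ^ j0 c b := pow_le c (by omega)
    unfold sl
    omega
  have h9 : Wd c b ≤ CC c ^ j0 c b := pow_le c (by omega)
  have hept : ep c t = ep c b := by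
    have h10 : CC c ^ j0 c b ≤ CC c ^ (3 * ep c b) := by
      exact pow_le c (by omega)
    have h11 : 1024 * CC c ^ (3 * ep c b) ≤ CC c ^ (3 * ep c b + 1) := by
      have := pow_pred_le (c := c) hc (l := 3 * ep c b + 1) (by omega)
      simpa using this
    have h12 : t < CC c ^ (3 * ep c b + 1) := by omega
    have h13 : lg c t = 3 * ep c b := lg_eq hc (by omega) h12
    unfold ep at h13 ⊢
    omega
  unfold smallV
  rw [mem_image, hept]
  unfold va
  rw [hj, hjn]
  obtain ⟨k, hk⟩ := dvd_gl c (ep c b + 7) b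
  have e1 : CC c ^ (3 * ep c b) = CC c ^ (ep c b + 7) * CC c ^ (2 * ep c b - 7) := by
    rw [← pow_add]; congr 1; omega
  have h14 : CC c ^ (3 * ep c b) ≤ gl c (ep c b + 7) b :=
    le_gl (by rw [e1]; exact Dvd.intro _ rfl) hlow
  have h16 := gl_le c (ep c b + 7) b
  have hp := pow_pos' c (ep c b + 7)
  have e2 : CC c ^ j0 c b = CC c ^ (ep c b + 7) * CC c := by
    rw [hj0, ← pow_succ]
  refine ⟨k - CC c ^ (2 * ep c b - 7), ?_, ?_⟩
  · rw [mem_range]
    rw [e1, hk] at h14
    have h17 : CC c ^ (ep c b + 7) * k < CC c ^ (ep c b + 7) * (CC c ^ (2 * ep c b - 7) + CC c) := by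
      rw [mul_add, ← e1, ← e2, ← hk]
      omega
    have h18 := lt_of_mul_lt_mul_left h17 (Nat.zero_le _)
    have h19 := le_of_mul_le_mul_left h14 hp
    omega
  · rw [e1, hk] at h14
    have h19 := le_of_mul_le_mul_left h14 hp
    obtain ⟨m, hm⟩ := Nat.exists_eq_add_of_le h19
    have h20 : k - CC c ^ (2 * ep c b - 7) = m := by omega
    rw [hk, e1, h20, hm]
    ring

/-- an `R` region is recent -/
lemma R_recent (hc : 10 ≤ c) {t s v : ℕ} (ht : 6 ≤ epo c t) (h : IsRk v (kid c t s))
    (hs : s < wb c t) :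
    (∃ l, l ≤ lg c t ∧ v ∈ lastM c 7 l t) ∨ v ∈ smallV c t := by
  obtain ⟨h1, h2, h3⟩ := kid_R_spec h
  have hu := un_un (c := c) hc s
  have hnf : ¬ fin c t (un c s) := fun hf => h2 (Or.inl hf)
  obtain ⟨-, -, h15⟩ := big_of_not_fin hc (by omega) hnf
  have hlt := lev_le_of_not_isP (c := c) (by omega) h2
  obtain ⟨h5, h4, -⟩ := K4' hc ht hs h
  rcases lev_cases (c := c) t (un c s) (by omega) with h6 | h6
  · rcases Nat.lt_or_ge (jn c (un c s)) (j0 c (un c s)) with h7 | h7
    · right
      rw [h3]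
      have h8 := un_le c s
      exact R_recent2 hc ht hu h15 h6 h7 (by omega)
    · left
      rw [h3]
      exact R_recent1 hc ht hu h15 hlt (by omega) (by rw [← h3]; omega)
  · left
    rw [h3]
    exact R_recent1 hc ht hu h15 hlt h6.le (by rw [← h3]; omega)

/-- the number of values of `kid` -/
theorem card_kid (hc : 10 ≤ c) {t : ℕ} (ht : 6 ≤ epo c t) (hw : wb c t ≤ t) :
    ((range (wb c t)).image (kid c t)).card ≤ 10 * lg c t + 11 + CC c := by
  classical
  have hsub : (range (wb c t)).image (kid c t) ⊆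
      (insert 0 ((range (lg c t + 1)).biUnion (fun l => lastM c 3 l t))).image (kidP c t) ∪
      ((range (lg c t + 1)).biUnion (fun l => lastM c 7 l t) ∪ smallV c t).image (kidR c t) := by
    intro k hk
    rw [mem_image] at hk
    obtain ⟨s, hs, rfl⟩ := hk
    rw [mem_range] at hs
    rw [mem_union, mem_image, mem_image]
    rcases kid_cases c t s with ⟨t0, -, -, h⟩ | ⟨-, -, h⟩
    · left
      refine ⟨_, ?_, (kid_eq_P h).symm⟩
      rcases Nat.eq_zero_or_pos (ga c t0 (un c s)) with h0 | h0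
      · rw [h0]; exact mem_insert_self _ _
      · obtain ⟨l, hl, hm⟩ := P_recent hc ht h h0 (by omega)
        apply mem_insert_of_mem
        rw [mem_biUnion]
        exact ⟨l, mem_range.mpr (by omega), hm⟩
    · right
      refine ⟨_, ?_, (kid_eq_R h).symm⟩
      rw [mem_union]
      rcases R_recent hc ht h hs with ⟨l, hl, hm⟩ | hm
      · left
        rw [mem_biUnion]
        exact ⟨l, mem_range.mpr (by omega), hm⟩
      · exact Or.inr hm
  have hb : ∀ n, ((range (lg c t + 1)).biUnion (fun l => lastM c n l t)).card ≤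
      (lg c t + 1) * n := by
    intro n
    refine card_biUnion_le.trans ?_
    calc ∑ l ∈ range (lg c t + 1), (lastM c n l t).card ≤ ∑ l ∈ range (lg c t + 1), n :=
          sum_le_sum (fun l _ => card_lastM n l t)
      _ = (lg c t + 1) * n := by rw [sum_const, card_range, smul_eq_mul]
  refine (card_le_card hsub).trans ((card_union_le _ _).trans ?_)
  have h1 := (card_image_le (s := insert 0 ((range (lg c t + 1)).biUnion
    (fun l => lastM c 3 l t))) (f := kidP c t)).trans ((card_insert_le _ _).trans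
    (Nat.add_le_add_right (hb 3) 1))
  have hsm : (smallV c t).card ≤ CC c := by
    refine card_image_le.trans ?_
    rw [card_range]
  have h2 := (card_image_le (s := (range (lg c t + 1)).biUnion (fun l => lastM c 7 l t) ∪
    smallV c t) (f := kidR c t)).trans ((card_union_le _ _).trans (Nat.add_le_add (hb 7) hsm))
  omega

/-- the number of runs -/
theorem length_runs (hc : 10 ≤ c) {t : ℕ} (ht : 6 ≤ epo c t) (H : KidOK c t) (u : ℕ) :
    (runs (kid c t) (wb c t) u).length ≤ 10 * lg c t + 11 + CC c :=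
  (runs_length_le (kid_conv H)).trans (card_kid hc ht H.wbt)

/-- only one value of `kid` is a `PT` -/
lemma PT_unique {t s s' g g' b b' : ℕ} (h : kid c t s = .PT g b) (h' : kid c t s' = .PT g' b') :
    g = g' ∧ b = b' := by
  have h1 := kid_eq_P (c := c) (t := t) (s := s) (g := g) (Or.inr ⟨b, h⟩)
  have h2 := kid_eq_P (c := c) (t := t) (s := s') (g := g') (Or.inr ⟨b', h'⟩)
  rw [h] at h1
  rw [h'] at h2
  unfold kidP at h1 h2
  split_ifs at h1 h2 with h3 h4
  simp only [Kid.PT.injEq, true_and] at h1 h2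
  exact ⟨h3.2.1.symm.trans h4.2.1, h1.trans h2.symm⟩

open Classical in
lemma length_toRegs_le (c t : ℕ) (q : Kid × ℕ × ℕ) :
    (toRegs c t q).length ≤ 1 + (if ∃ g b, q.1 = .PT g b then 1 else 0) := by
  obtain ⟨k, s, e⟩ := q
  cases k with
  | PT g b =>
    rw [if_pos ⟨g, b, rfl⟩]
    simp only [toRegs]
    split_ifs <;> simp
  | _ => simp [toRegs]

open Classical in
lemma length_flatMap_le {t : ℕ} : ∀ (L : List (Kid × ℕ × ℕ)), (L.map Prod.fst).Nodup →
    (∀ q ∈ L, ∀ q' ∈ L, ∀ g b g' b', q.1 = .PT g b → q'.1 = .PT g' b' → q.1 = q'.1) →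
    (L.flatMap (toRegs c t)).length ≤ L.length +
      (if ∃ q ∈ L, ∃ g b, q.1 = .PT g b then 1 else 0)
  | [], _, _ => by simp
  | q :: L, hn, h => by
    rw [List.flatMap_cons, List.length_append, List.length_cons]
    rw [List.map_cons, List.nodup_cons] at hn
    have ih := length_flatMap_le (t := t) L hn.2 (fun q1 h1 q2 h2 =>
      h q1 (List.mem_cons_of_mem _ h1) q2 (List.mem_cons_of_mem _ h2))
    have h1 := length_toRegs_le c t q
    by_cases h2 : ∃ g b, q.1 = .PT g b
    · have h3 : ¬ ∃ q ∈ L, ∃ g b, q.1 = .PT g b := by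
        rintro ⟨q', hq', g', b', h4⟩
        obtain ⟨g, b, h5⟩ := h2
        apply hn.1
        rw [List.mem_map]
        exact ⟨q', hq', (h q List.mem_cons_self q' (List.mem_cons_of_mem _ hq') g b g' b' h5
          h4).symm⟩
      rw [if_neg h3] at ih
      rw [if_pos h2] at h1
      rw [if_pos ⟨q, List.mem_cons_self, h2⟩]
      omega
    · rw [if_neg h2] at h1
      by_cases h3 : ∃ q ∈ L, ∃ g b, q.1 = .PT g b
      · rw [if_pos h3] at ih
        obtain ⟨q', hq', h4⟩ := h3
        rw [if_pos ⟨q', List.mem_cons_of_mem _ hq', h4⟩]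
        omega
      · rw [if_neg h3] at ih
        have : (0:ℕ) ≤ (if ∃ q' ∈ q :: L, ∃ g b, q'.1 = .PT g b then 1 else 0) := Nat.zero_le _
        omega

/-- **The number of regions** below the window. -/
theorem length_body (hc : 10 ≤ c) {t : ℕ} (ht : 6 ≤ epo c t) (H : KidOK c t) :
    (body c t).length ≤ 10 * lg c t + 12 + CC c := by
  have h1 := length_runs hc ht H 0
  have h2 := length_flatMap_le (c := c) (t := t) (runs (kid c t) (wb c t) 0)
    (runs_fst_nodup (kid_conv H) _ 0 le_rfl) (by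
      intro q hq q' hq' g b g' b' h3 h4
      obtain ⟨-, h6, h7, h8, -⟩ := isRun_of_mem' _ hq
      obtain ⟨-, h6', h7', h8', -⟩ := isRun_of_mem' _ hq'
      have h9 := h8 q.2.1 le_rfl h6
      have h10 := h8' q'.2.1 le_rfl h6'
      rw [h3] at h9
      rw [h4] at h10
      obtain ⟨h11, h12⟩ := PT_unique h9 h10
      rw [h3, h4, h11, h12])
  unfold body
  split_ifs at h2 <;> omega

end Pool.Agent.Helper99.ETK
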