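import Mathlib
import Pool.Agent.Helper99.ETK.Lam
import Pool.Agent.ETS.FarDefs

/-!
# E-T (MP_12a1af_nt), project T*: far kinematics, part 1 (laminarity, positions of the zones)
-/

namespace Pool.Agent.Helper99.ETK

open Pool.Agent.Helper29.ETK
open Pool.Agent.ETS (Desc IsDesc Occ KidOK)

variable {c : ℕ}

lemma tm_mono (hc : 10 ≤ c) {K' K : ℕ} (ht : 6 ≤ epo c K') (h : K' ≤ K) : tm c K' ≤ tm c K := by
  have htK : 6 ≤ epo c K := ht.trans (epo_mono h)
  by_cases hp : ph c K < 3
  · have e1 : tm c K = sst c K - 1 := by unfold tm; rw [if_pos hp]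
    rcases Nat.lt_or_ge K' (sst c K) with h1 | h1
    · have := tm_le c K'
      omega
    · -- the same slot
      have hE : epo c K' = epo c K := by
        have a := epo_mono (c := c) h1
        have b := epo_mono (c := c) h
        rw [epo_sst hc (by omega)] at a
        omega
      have h2 := lt_sst_of_ph hp
      have h3 : K' % (8 * Gq c (epo c K)) = K' - sst c K := by
        obtain ⟨m, hm⟩ := dvd_sst c K
        have h4 : K' = (K' - sst c K) + 8 * Gq c (epo c K) * m := by omega
        rw [h4, Nat.add_mul_mod_self_left, Nat.mod_eq_of_lt (by omega)]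
        omega
      have h5 : ph c K' < 3 := by
        unfold ph
        rw [hE, h3, Nat.div_lt_iff_lt_mul (Gq_pos c _)]
        omega
      have e2 : tm c K' = sst c K' - 1 := by unfold tm; rw [if_pos h5]
      have e3 : sst c K' = sst c K := by
        have h6 : sst c K' = K' - K' % (8 * Gq c (epo c K')) := rfl
        rw [h6, hE, h3]
        omega
      omega
  · have e1 : tm c K = K := by unfold tm; rw [if_neg hp]
    have := tm_le c K'
    omega

/-- the unit in action -/
lemma ab_spec {t : ℕ} (h : 0 < ab c t) : un c (ab c t) = ab c t ∧ acts c t (ab c t) := by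
  have := Nat.findGreatest_of_ne_zero (P := fun b => un c b = b ∧
    ¬ (isP c (tm c t) b ↔ isP c t b)) (n := t) (m := ab c t) rfl (by omega)
  exact this

/-- a `PT` kind: the unit in action, the anchor, the kind of the transitional state -/
lemma PT_spec {t s g b : ℕ} (h : kid c t s = .PT g b) :
    b = ab c t ∧ 0 < b ∧ un c b = b ∧ acts c t b ∧ g = ag c t ∧ ak c t = 0 := by
  have h2 : kidP c t g = .PT g b := by
    rw [← kid_eq_P (c := c) (t := t) (s := s) (g := g) (Or.inr ⟨b, h⟩), h]
  unfold kidP at h2
  split_ifs at h2 with h3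
  simp only [Kid.PT.injEq, true_and] at h2
  obtain ⟨h4, h5, h6⟩ := h3
  obtain ⟨h7, h8⟩ := ab_spec h4
  rw [← h2]
  exact ⟨rfl, h4, h7, h8, h5.symm, h6⟩

end Pool.Agent.Helper99.ETK
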