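import Mathlib
import Pool.Agent.Helper99.ETK.FarK1
import Pool.Agent.Helper29.ETK.NearT

/-!
# E-T (MP_12a1af_nt), project T*: far kinematics, part 2 (zones of `R` type)
-/

namespace Pool.Agent.Helper99.ETK

open Pool.Agent.Helper29.ETK
open Pool.Agent.ETS (Desc IsDesc Occ KidOK)

variable {c : ℕ}

/-- an event `x` of the unit `b` which is not done before the slot of `t` is hardly before `t` -/
lemma late' (hc : 10 ≤ c) {t x b f : ℕ} (ht : 6 ≤ epo c t)
    (hx : x ≤ 7 * b) (hf : f ≤ b) (hbx : b ≤ x) (hn : ¬ x ≤ opp c (cls c f) (tm c t)) :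
    60 * CC c * (t - x) ≤ Wd c b := by
  rcases Nat.lt_or_ge x t with hxt | hxt
  swap
  · rw [Nat.sub_eq_zero_of_le hxt]; simp
  have hE := epo_tm hc ht
  have h0 := tm_ge_half hc ht
  have h1 : tm c t < 8 * b := alive hc (by omega) hx hf hn
  have h2 := lt_opp_anchor (c := c) hc (f := f) (t := tm c t) (by omega) (by omega)
  have h3 := lt_tm c t
  have h4 := Gq_le c (epo c t)
  have h5 : Tq c (epo c (tm c t)) ≤ Tq c (epo c t) :=
    Tq_mono hc (by omega) (epo_mono (tm_le c t))
  have h6 : epo c t ≤ ep c b := by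
    have h7 : lg c t ≤ lg c b + 1 := by
      have h8 : b < CC c ^ (lg c b + 1) := lt_lg hc b
      have h9 : t < CC c ^ (lg c b + 2) := by
        calc t < 16 * b := by omega
          _ ≤ CC c * CC c ^ (lg c b + 1) := Nat.mul_le_mul (by have := CC_ge hc; omega) h8.le
          _ = CC c ^ (lg c b + 2) := by ring
      have := lg_lt (c := c) (l := lg c b + 2) (by omega) h9
      omega
    unfold epo ep
    omega
  have h7 : 128 * (CC c * Tq c (epo c t)) ≤ Wd c b := by
    calc 128 * (CC c * Tq c (epo c t)) = CC c * (128 * Tq c (epo c t)) := by ring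
      _ = CC c * CC c ^ (epo c t - 1) := by rw [Tq_eq hc (by omega)]
      _ = CC c ^ epo c t := (pow_succ_pred (by omega)).symm
      _ ≤ Wd c b := pow_le c h6
  calc 60 * CC c * (t - x) ≤ 60 * CC c * (2 * Tq c (epo c t) + 3 * Gq c (epo c t)) :=
        Nat.mul_le_mul_left _ (by omega)
    _ = CC c * (120 * Tq c (epo c t) + 180 * Gq c (epo c t)) := by ring
    _ ≤ CC c * (128 * Tq c (epo c t)) := Nat.mul_le_mul_left _ (by omega)
    _ = 128 * (CC c * Tq c (epo c t)) := by ring
    _ ≤ Wd c b := h7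

/-- a zone of `R` type: `w` is the unit below the part with the variable `y`, `l` the level -/
structure RZ (c t : ℕ) (d : Desc) (w l : ℕ) : Prop where
  uw : un c w = w
  hw : w + Wd c w = d.Ip c
  lg15 : 15 ≤ lg c w
  wlo : w ≤ d.lo
  loI : d.lo ≤ d.Im c ∨ d.lo = w
  lolt : d.lo < d.hi c
  imI : d.Im c ≤ d.Ip c
  hv : d.hi c = gl c l w + CC c ^ l
  ipv : d.Ip c ≤ d.hi c
  jl : jn c w ≤ l
  hll : l ≤ lg c w
  levt : lev c (tm c t) w = l
  upm : ∀ s, d.Im c ≤ s → s < d.hi c → IsRk (d.hi c) (kid c t s)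
  lvl : ∀ s, w ≤ s → s < d.hi c → lev c (tm c t) (un c s) = l
  lvl' : ∀ s, d.Ip c ≤ s → s < d.hi c → lev c t (un c s) = l
  nb : l = jn c w ∨ (j0 c w < l ∧ Dt c l w ≤ t)
  below : ∀ s, s + 1 = d.Im c → ¬ IsRk (d.hi c) (kid c t s)
  belP : d.Im c = d.hi c → ∀ s, s + 1 = d.Im c → ∃ g, IsPk g (kid c t s)
  uIm : 0 < d.Im c ∧ un c (d.Im c - 1) + Wd c (d.Im c - 1) = d.Im c
  wbv : d.hi c ≤ wb c t

lemma not_acts_of_R {t s v : ℕ} (h : IsRk v (kid c t s)) : ¬ acts c t (un c s) := by
  obtain ⟨h1, h2, -⟩ := kid_R_spec h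
  unfold acts
  rw [not_not]
  exact ⟨fun h => absurd h h1, fun h => absurd h h2⟩

/-- levels of a position in an `R` region -/
lemma R_level (hc : 10 ≤ c) {t s v : ℕ} (ht : 6 ≤ epo c t) (h : IsRk v (kid c t s)) :
    15 ≤ lg c s ∧ jn c (un c s) ≤ lev c t (un c s) ∧ lev c t (un c s) ≤ lg c s ∧
    lev c (tm c t) (un c s) = lev c t (un c s) ∧
    v = gl c (lev c t (un c s)) (un c s) + CC c ^ lev c t (un c s) ∧
    (lev c t (un c s) = jn c (un c s) ∨ (j0 c (un c s) < lev c t (un c s) ∧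
      Dt c (lev c t (un c s)) (un c s) ≤ t)) := by
  obtain ⟨h1, h2, h3⟩ := kid_R_spec h
  have hu := un_un (c := c) hc s
  obtain ⟨-, -, h15⟩ := big_of_not_isP hc (by omega) h2
  have h4 := (same_of_not_acts hc ht hu (not_acts_of_R h)).1
  have hj := jn_le_lev (c := c) t (un c s) (by omega)
  have hlt := lev_le_of_not_isP (c := c) (by omega) h2
  have hjc := lev_cases (c := c) t (un c s) (by omega)
  rw [lg_un hc] at h15 hlt
  refine ⟨h15, hj, hlt, h4, h3, ?_⟩
  rcases hjc with h5 | h5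
  · exact Or.inl h5
  · right
    refine ⟨h5, ?_⟩
    have := (exD_iff hc (by omega) hu (by rw [lg_un hc]; omega) h5 (by rw [lg_un hc]; omega)).mpr
      (Or.inr ⟨rfl, h2⟩)
    unfold exD at this
    exact this.trans (opp_le _ _ _)

/-- the bottom of a run of `R` type is a unit -/
lemma un_bottom (hc : 10 ≤ c) {t b v : ℕ} (ht : 6 ≤ epo c t) (h : IsRk v (kid c t b))
    (hb : b = 0 ∨ kid c t (b - 1) ≠ kid c t b) :
    0 < b ∧ un c b = b ∧ un c (b - 1) + Wd c (b - 1) = b := by
  have h0 : b ≠ 0 := by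
    rintro rfl
    have := (R_level hc ht h).1
    simp [lg] at this
  rcases hb with hb | hb
  · exact absurd hb h0
  · have := un_of_ne hc (by omega) hb
    exact ⟨by omega, this.1, this.2⟩

lemma kid_ne_of {t s v : ℕ} {k : Kid} (h : IsRk v k) (hs : kid c t s = k) {s' : ℕ}
    (hne : kid c t s' ≠ k) : ¬ IsRk v (kid c t s') := by
  intro h'
  apply hne
  rw [kid_eq_R h', ← hs]
  exact (kid_eq_R (by rw [hs]; exact h)).symm

/-- zones with a block -/
lemma RZ_block (hc : 10 ≤ c) {t b v : ℕ} (ht : 6 ≤ epo c t) (d : Desc) (hlo : d.lo = b)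
    (hIm : d.Im c = b) (hIp : d.Ip c = b + Wd c b) (hhi : d.hi c = v) (hbv : b < v)
    (hvw : v ≤ wb c t)
    (hk : ∀ s, b ≤ s → s < v → IsRk v (kid c t s))
    (hbe : b = 0 ∨ ¬ IsRk v (kid c t (b - 1))) : ∃ l, RZ c t d b l := by
  have hb := hk b le_rfl hbv
  obtain ⟨hb0, hub, hubm⟩ := un_bottom hc ht hb (by
    rcases hbe with h | h
    · exact Or.inl h
    · right
      intro h'
      rw [h'] at h
      exact h hb)
  obtain ⟨h15, hj, hlt, htm, hv, hnb⟩ := R_level hc ht hb
  obtain ⟨-, hnP, -⟩ := kid_R_spec hb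
  rw [hub] at hj hlt htm hv hnb hnP
  have hlv : ∀ s, b ≤ s → s < v → lev c t (un c s) = lev c t b ∧
      lev c (tm c t) (un c s) = lev c t b := by
    intro s h1 h2
    have h3 : b ≤ un c s := by
      have := un_mono (c := c) hc h1
      rw [hub] at this
      exact this
    obtain ⟨-, h4, -⟩ := not_isP_above hc (by omega) hub (un_un hc s) (by omega) hnP h3 (by
      have := un_le c s
      unfold va
      omega)
    have h5 := (same_of_not_acts hc ht (un_un hc s) (not_acts_of_R (hk s h1 h2))).1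
    exact ⟨h4, h5.trans h4⟩
  refine ⟨lev c t b, hub, hIp.symm, h15, hlo.ge, Or.inr hlo, by omega, by omega, by rw [hhi, hv],
    ?_, hj, hlt, htm, ?_, ?_, ?_, hnb, ?_, ?_, ?_, by omega⟩
  · rw [hIp, hhi, hv]
    exact un_add_le hub (by have := ep_lt_jn c b; omega)
  · intro s h1 h2
    rw [hhi] at h2 ⊢
    exact hk s (by omega) h2
  · intro s h1 h2
    exact (hlv s h1 (by omega)).2
  · intro s h1 h2
    exact (hlv s (by omega) (by omega)).1
  · intro s h1
    rw [hIm] at h1
    have : s = b - 1 := by omega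
    rw [this, hhi]
    rcases hbe with h | h
    · omega
    · exact h
  · intro h; omega
  · rw [hIm]
    exact ⟨hb0, hubm⟩

/-- the unit in action: level and top of the `R` side -/
lemma acts_level (hc : 10 ≤ c) {t b : ℕ} (ht : 6 ≤ epo c t) (hb : un c b = b)
    (h : acts c t b) :
    15 ≤ lg c b ∧ jn c b ≤ lev c (tm c t) b ∧ lev c (tm c t) b ≤ lg c b ∧
    vM c t b = gl c (lev c (tm c t) b) b + CC c ^ lev c (tm c t) b ∧
    (lev c (tm c t) b = jn c b ∨ (j0 c b < lev c (tm c t) b ∧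
      Dt c (lev c (tm c t) b) b ≤ t)) ∧
    (∀ s, b ≤ s → s < vM c t b → lev c (tm c t) (un c s) = lev c (tm c t) b ∧
      (b + Wd c b ≤ s → lev c t (un c s) = lev c (tm c t) b)) := by
  obtain ⟨h15, h8, hph, htm, hcase⟩ := acts_cases hc ht hb h
  have hE := epo_tm hc ht
  have hj := jn_le_lev (c := c) (tm c t) b (by omega)
  have hjc := lev_cases (c := c) (tm c t) b (by omega)
  have hW := Wd_pos c b
  -- units above `b` are not in action
  have hna : ∀ s, b + Wd c b ≤ s → ¬ acts c t (un c s) := by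
    intro s h1 h2
    have h3 := acts_unique hc ht hb (un_un hc s) h h2
    have h4 := lt_un c s
    rw [← Wd_un hc s, ← h3] at h4
    omega
  rcases hcase with ⟨h1, h2, h3, h4, h5, -⟩ | ⟨h1, h2, h3, h4, h5, h6, -⟩
  · have hvM : vM c t b = va c (tm c t) b := by unfold vM; rw [if_neg h2]
    refine ⟨h15, hj, h5, hvM, ?_, ?_⟩
    · rcases hjc with h7 | h7
      · exact Or.inl h7
      · right
        refine ⟨h7, ?_⟩
        have := (exD_iff hc (by omega) hb (by omega) h7 h5).mpr (Or.inr ⟨rfl, h2⟩)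
        unfold exD at this
        have h9 := opp_le c (cls c (gl c (lev c (tm c t) b) b)) (tm c t)
        have h10 := tm_le c t
        omega
    · intro s h7 h8
      have h9 : b ≤ un c s := by
        have := un_mono (c := c) hc h7
        omega
      obtain ⟨-, h10, -⟩ := not_isP_above hc (by omega) hb (un_un hc s) (by omega) h2 h9 (by
        have := un_le c s
        rw [hvM] at h8
        omega)
      refine ⟨h10, fun h11 => ?_⟩
      rw [← (same_of_not_acts hc ht (un_un hc s) (hna s h11)).1, h10]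
  · have hvM : vM c t b = va c t b := by unfold vM; rw [if_pos h2]
    rw [← h3]
    refine ⟨h15, by omega, h5, hvM, Or.inr ⟨h6, ?_⟩, ?_⟩
    · have := sst_le c t
      omega
    · intro s h7 h8
      have h9 : b ≤ un c s := by
        have := un_mono (c := c) hc h7
        omega
      obtain ⟨-, h10, -⟩ := not_isP_above hc (by omega) hb (un_un hc s) (by omega) h1 h9 (by
        have := un_le c s
        rw [hvM] at h8
        omega)
      refine ⟨?_, fun _ => h10⟩
      rcases Nat.lt_or_ge s (b + Wd c b) with h11 | h11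
      · have : un c s = b := eq_of_mem_unit hc hb h7 h11
        rw [this, h3]
      · rw [(same_of_not_acts hc ht (un_un hc s) (hna s h11)).1, h10]

/-- zones without block on their first part -/
lemma RZ_acts (hc : 10 ≤ c) {t b v : ℕ} (ht : 6 ≤ epo c t) (d : Desc) (hlo : b ≤ d.lo)
    (hlo2 : d.lo ≤ d.Im c ∨ d.lo = b) (hlt : d.lo < v) (hIm : d.Im c = b + Wd c b)
    (hIp : d.Ip c = b + Wd c b)
    (hhi : d.hi c = v) (hub : un c b = b) (ha : acts c t b) (hv : v = vM c t b)
    (hvw : v ≤ wb c t) : ∃ l, RZ c t d b l := by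
  obtain ⟨h15, hj, hle, hvl, hnb, hlv⟩ := acts_level hc ht hub ha
  have hW := Wd_pos c b
  have hk : ∀ s, d.Im c ≤ s → s < d.hi c → IsRk (d.hi c) (kid c t s) := by
    intro s h1 h2
    rw [hhi, hv] at h2 ⊢
    rw [hIm] at h1
    obtain ⟨h3, h4, -⟩ := kid_above_acts hc ht hub ha h1 h2
    rw [kid_of_not_isM h3, h4]
    exact kidR_isRk _ _ _
  have hP : ∀ s, s + 1 = d.Im c → ∃ g, IsPk g (kid c t s) := by
    intro s h1
    rw [hIm] at h1
    have hs : un c s = b := eq_of_mem_unit hc hub (by omega) (by omega)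
    have hM : isM c t (un c s) := by rw [hs]; exact isM_of_acts ha
    rw [kid_of_isM hM]
    exact ⟨_, kidP_isPk _ _ _⟩
  refine ⟨lev c (tm c t) b, hub, hIp.symm, h15, hlo, hlo2, by omega, by omega,
    by rw [hhi, hv, hvl], ?_, hj, hle, rfl, hk, ?_, ?_, hnb, ?_, ?_, ?_, by omega⟩
  · rw [hIp, hhi, hv, hvl]
    exact un_add_le hub (by have := ep_lt_jn c b; omega)
  · intro s h1 h2
    exact (hlv s h1 (by omega)).1
  · intro s h1 h2
    exact (hlv s (by omega) (by omega)).2 (by omega)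
  · intro s h1
    obtain ⟨g, hg⟩ := hP s h1
    exact hg.not_isRk
  · intro _ s h1
    exact hP s h1
  · rw [hIm]
    refine ⟨by omega, ?_⟩
    have hs : un c (b + Wd c b - 1) = b := eq_of_mem_unit hc hub (by omega) (by omega)
    have h2 : Wd c (b + Wd c b - 1) = Wd c b := by
      rw [← Wd_un hc, hs]
    rw [hs, h2]

/-- every zone of `R` type -/
theorem exists_RZ (hc : 10 ≤ c) {t : ℕ} (ht : 6 ≤ epo c t) {d : Desc} (h : Occ c t d)
    (hR : d.IsR) : ∃ w l, RZ c t d w l := by
  obtain ⟨r0, r1, h⟩ := h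
  cases d with
  | P g e => exact absurd hR (by simp [Desc.IsR])
  | PT g b => exact absurd hR (by simp [Desc.IsR])
  | RTh b v =>
    obtain ⟨-, -, h1, h2, h3, h4⟩ := h
    refine ⟨b, RZ_block hc ht (.RTh b v) rfl rfl rfl rfl h1 h2
      (fun s a b => Or.inr (Or.inr (h3 s a b))) ?_⟩
    rcases h4 with h4 | h4
    · exact Or.inl h4
    · exact Or.inr (kid_ne_of (Or.inr (Or.inr rfl)) (h3 b le_rfl h1) h4)
  | RT b v =>
    obtain ⟨-, -, h1, h2, h3, h4⟩ := h
    refine ⟨b, RZ_block hc ht (.RT b v) rfl rfl rfl rfl h1 h2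
      (fun s a b => Or.inr (Or.inl (h3 s a b))) ?_⟩
    rcases h4 with h4 | h4
    · exact Or.inl h4
    · exact Or.inr (kid_ne_of (Or.inr (Or.inl rfl)) (h3 b le_rfl h1) h4)
  | RS g b v =>
    obtain ⟨-, -, h1, h2, h3, h4, h5, h6⟩ := h
    have hW := Wd_pos c b
    obtain ⟨hb1, hb2, hb3, hb4, -, -⟩ := PT_spec (h5 b h2 (by omega))
    have hv : v = vM c t b := by rw [h1, av_eq, ← hb1]
    exact ⟨b, RZ_acts hc ht (.RS g b v) le_rfl (Or.inr rfl) (by simp only [Desc.lo]; omega) rfl rfl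
      (v := v) rfl hb3 hb4 hv h4⟩
  | R b v =>
    obtain ⟨-, -, h1, h2, h3, h4⟩ := h
    have hk : IsRk v (kid c t b) := Or.inl (h3 b le_rfl h1)
    have hne : b = 0 ∨ kid c t (b - 1) ≠ kid c t b := by
      rcases h4 with h4 | h4
      · exact Or.inl h4
      · right; rw [h3 b le_rfl h1]; exact h4
    obtain ⟨hb0, hub, -⟩ := un_bottom hc ht hk hne
    have hR : kidR c t v = .R v := by rw [← kid_eq_R hk, h3 b le_rfl h1]
    obtain ⟨ha0, hav, hak⟩ : 0 < ab c t ∧ av c t = v ∧ ak c t ≠ 2 := by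
      rcases kidR_cases c t v with h5 | h5 | h5
      · rw [h5.1] at hR; cases hR
      · rw [h5.1] at hR; cases hR
      · exact h5.2
    obtain ⟨hu, ha⟩ := Helper29.ETK.ab_spec hc ht ha0
    set a := ab c t with haa
    have hvM : v = vM c t a := by rw [← hav]; rfl
    have hb1 : a < b := by
      obtain ⟨k1, k2, k3⟩ := kid_R_spec hk
      rw [hub] at k1 k2 k3
      exact lt_of_va_eq hc ht hu hub ha (by unfold isM; tauto) (by rw [← k3, hvM])
    have hb2 : a + Wd c a = b := by
      have h5 : a + Wd c a ≤ b := unit_add_le hc hu hub hb1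
      by_contra hne'
      have h6 : a + Wd c a ≤ b - 1 := by omega
      obtain ⟨h7, h8, -⟩ := kid_above_acts hc ht hu ha h6 (by omega)
      have h9 : kid c t (b - 1) = .R v := by
        rw [kid_of_not_isM h7, h8, ← hvM, hR]
      rcases h4 with h4 | h4
      · omega
      · exact h4 h9
    exact ⟨a, RZ_acts hc ht (.R b v) hb1.le (Or.inl le_rfl) h1
      (by simp only [Desc.Im]; omega) (by simp only [Desc.Ip]; omega) (v := v) rfl hu ha hvM h2⟩

end Pool.Agent.Helper99.ETK
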