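import Mathlib
import Pool.Agent.Helper99.ETK.FarK5

/-!
# E-T (MP_12a1af_nt), project T*: far kinematics, part 6 (F4R, F5R, F5P, F7, F8)
-/

namespace Pool.Agent.Helper99.ETK

open Pool.Agent.Helper29.ETK
open Pool.Agent.ETS (Desc IsDesc Occ KidOK ddist)

variable {c : ℕ}

/-- the down event of the unit below an `R` zone, in numbers -/
lemma RZ.down {t w l : ℕ} {d : Desc} (H : RZ c t d w l)
    (hl : j0 c w < l) (hD : Dt c l w ≤ t) :
    ∃ q, CC c * q = (d.hi c - w) + CC c ^ l ∧ CC c ^ (l - 1) ≤ q ∧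
      d.hi c + 5 * CC c ^ (l - 1) + (d.hi c - w) + q ≤ t ∧ w < d.hi c ∧
      d.hi c - w ≤ CC c ^ l := by
  have h15 := H.lg15
  have hel := H.ep_le
  have hv := H.hv
  have hgw := gl_le c l w
  have hlt := lt_gl c l w
  have hdw : CC c ∣ 2 * CC c ^ l + gl c l w - w :=
    dvd_of_unit' (c := c) (l := l) (b := w) (by omega) H.uw hel
  have hx : 2 * CC c ^ l + gl c l w - w = (d.hi c - w) + CC c ^ l := by omega
  rw [hx] at hdw
  obtain ⟨q, hq⟩ := hdw
  have hC := CC_pos c
  have hdiv : (d.hi c - w + CC c ^ l) / CC c = q := by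
    rw [hq, Nat.mul_div_cancel_left _ hC]
  refine ⟨q, hq.symm, ?_, ?_, by omega, by omega⟩
  · have h1 : CC c * CC c ^ (l - 1) ≤ CC c * q := by
      rw [← pow_succ_pred (by omega), ← hq]
      omega
    exact le_of_mul_le_mul_left h1 hC
  · unfold Dt sl at hD
    rw [hx, hdiv] at hD
    omega

/-- (F5R), with `w` -/
lemma RZ.F5 (hc : 10 ≤ c) {t w l : ℕ} {d : Desc} (H : RZ c t d w l) :
    (CC c + 1) * (d.hi c - w) ≤ CC c * (t - d.hi c) ∧ d.hi c + 2 * Hb c w ≤ t := by
  have hCC := CC_ge hc
  have hW := Wd_pos c w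
  have h1 := H.hw
  have h2 := H.ipv
  have h3 := H.wbv
  rcases H.nb with h4 | ⟨h4, h5⟩
  · have h5 := (newborn_le hc (K := t) (s := w) (by omega)).1
    have h6 := H.hv
    rw [← h4, ← h6] at h5
    refine ⟨?_, h5⟩
    have h7 : d.hi c - w ≤ Hb c w := by
      have h8 : CC c ^ l ≤ Hb c w := by rw [h4]; exact nb_le_Hb c w
      have h9 := gl_le c l w
      omega
    calc (CC c + 1) * (d.hi c - w) ≤ (CC c + CC c) * Hb c w :=
          Nat.mul_le_mul (by omega) h7
      _ = CC c * (2 * Hb c w) := by ring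
      _ ≤ CC c * (t - d.hi c) := Nat.mul_le_mul_left _ (by omega)
  · obtain ⟨q, q1, q2, q3, q4, q5⟩ := H.down h4 h5
    have h7 : Hb c w ≤ CC c ^ (l - 1) := pow_le c (by omega)
    refine ⟨?_, by omega⟩
    have h8 : (d.hi c - w) + q ≤ t - d.hi c := by omega
    calc (CC c + 1) * (d.hi c - w) = CC c * (d.hi c - w) + (d.hi c - w) := by ring
      _ ≤ CC c * (d.hi c - w) + CC c * q := by omega
      _ = CC c * ((d.hi c - w) + q) := by ring
      _ ≤ _ := Nat.mul_le_mul_left _ h8

/-- (F5R) -/
theorem far_F5R (hc : 10 ≤ c) {K : ℕ} (ht : 6 ≤ epo c K) {d : Desc}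
    (h : Occ c K d) (hR : d.IsR) :
    (CC c + 1) * (d.hi c - d.lo) ≤ CC c * (K - d.hi c) ∧ d.hi c + 2 * Hb c d.lo ≤ K := by
  obtain ⟨w, l, H⟩ := exists_RZ hc ht h hR
  obtain ⟨h1, h2⟩ := H.F5 hc
  have h3 := H.ep_eq hc H.wlo H.lolt
  have h4 : Hb c d.lo = Hb c w := by unfold Hb j0; rw [h3]
  rw [h4]
  refine ⟨le_trans (Nat.mul_le_mul_left _ ?_) h1, h2⟩
  have := H.wlo
  omega

/-- a newborn cell which is touched by the next tent -/
lemma newborn_touched (hc : 10 ≤ c) {K w l : ℕ} (ht : 6 ≤ epo c K) {d : Desc}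
    (H : RZ c K d w l) (hl : l = jn c w) (hIm : gl c l w < d.Im c) :
    gl c l w + 5 * CC c ^ j0 c w ≤ K := by
  have hW := Wd_pos c w
  have h1 := H.hw
  have h2 := H.ipv
  have him := H.imI
  have h15 := H.lg15
  have hel := H.ep_le
  obtain ⟨s, hs⟩ : ∃ s, s + 1 = d.Im c := ⟨d.Im c - 1, by omega⟩
  have hb := H.below s hs
  have hu := un_un (c := c) hc s
  -- the unit of `s` is in the newborn cell
  have hv := H.hv
  have hgs : gl c l s = gl c l w := Helper29.ETK.gl_eq (dvd_gl _ _ _) (by omega) (by omega)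
  have hw0 : w ≠ 0 := by
    rintro rfl
    simp [lg] at h15
  have hlgs : lg c s = lg c w := (lg_cell' hc hw0 H.hll hgs.symm).symm
  have heps : ep c s = ep c w := by unfold ep; rw [hlgs]
  have hgu : gl c l (un c s) = gl c l w := by rw [gl_un hc (by omega), hgs]
  have hju : jn c (un c s) = l := by
    have h3 : gl c (jn c w) w = gl c (jn c w) (un c s) := by rw [← hl]; exact hgu.symm
    rw [(jn_cell hc (by omega) h3).1, hl]
  have hlu := lg_un (c := c) hc s
  have hjj : j0 c (un c s) = j0 c w := by unfold j0 ep; rw [hlu, hlgs]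
  have hE := epo_tm hc ht
  have hlev : j0 c (un c s) < lev c K (un c s) := by
    rcases lev_cases (c := c) K (un c s) (by omega) with h3 | h3
    · exfalso
      apply hb
      have h4 := jn_le_j0 c (un c s)
      have h5 : ¬ isP c K (un c s) := not_isP_of_lev (by omega) (by omega)
      have h6 : lev c (tm c K) (un c s) ≤ lev c K (un c s) :=
        lev_mono hc (by omega) hu (by omega) (tm_le c K)
      have h7 : ¬ isP c (tm c K) (un c s) := not_isP_of_lev (by omega) (by omega)
      have h8 : ¬ isM c K (un c s) := by unfold isM; tauto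
      rw [kid_of_not_isM h8]
      have h9 : va c K (un c s) = d.hi c := by
        unfold va
        rw [h3, hju, hgu, hv]
      rw [h9]
      exact kidR_isRk _ _ _
    · exact h3
  have hle := lev_le (c := c) K (un c s) (by omega)
  have hU : exU c K (j0 c (un c s) + 1) (un c s) :=
    (exU_iff hc (by omega) hu (by omega) (by omega) (by omega)).mpr (by omega)
  have h3 : Ut c (j0 c (un c s) + 1) (un c s) ≤ K := by
    unfold exU at hU
    exact hU.trans (opp_le _ _ _)
  unfold Ut at h3
  rw [Nat.add_sub_cancel, hjj, Wd_un hc] at h3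
  have h4 := le_sl c (un c s + Wd c s - gl c (j0 c w + 1) (un c s))
  have h5 := gl_le c (j0 c w + 1) (un c s)
  have h6 := lt_un c s
  omega

lemma RZ.w_eq (hc : 10 ≤ c) {t w l b : ℕ} {d : Desc} (H : RZ c t d w l) (hlo : d.lo = b)
    (hIp : d.Ip c = b + Wd c b) : w = b := by
  have h1 := H.hw
  have h2 := H.Wd_eq hc (s := b) (by have := H.wlo; omega) (by have := H.lolt; omega)
  omega

/-- an `RT` zone does not start at the bottom of its cell -/
lemma RT_bottom (hc : 10 ≤ c) {t b v w l : ℕ} (ht : 6 ≤ epo c t) {r0 r1 : ETS.Reg}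
    (h : IsDesc c t (.RT b v) r0 r1) (H : RZ c t (.RT b v) w l) : gl c l w < b := by
  obtain ⟨-, -, h1, h2, h3, h4⟩ := h
  have hw : w = b := H.w_eq hc rfl rfl
  subst hw
  have hk : IsRk v (kid c t w) := Or.inr (Or.inl (h3 w le_rfl h1))
  have hR : kidR c t v = .RT v := by rw [← kid_eq_R hk, h3 w le_rfl h1]
  obtain ⟨ha0, hav⟩ : 0 < ab c t ∧ av c t = v := by
    rcases kidR_cases c t v with h5 | h5 | h5
    · rw [h5.1] at hR; cases hR
    · exact ⟨h5.2.1, h5.2.2.1⟩
    · rw [h5.1] at hR; cases hR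
  obtain ⟨hu, ha⟩ := Helper29.ETK.ab_spec hc ht ha0
  set a := ab c t with haa
  have hvM : v = vM c t a := by rw [← hav]; rfl
  have hb1 : a < w := by
    obtain ⟨k1, k2, k3⟩ := kid_R_spec hk
    rw [H.uw] at k1 k2 k3
    exact lt_of_va_eq hc ht hu H.uw ha (by unfold isM; tauto) (by rw [← k3, hvM])
  obtain ⟨q1, q2, q3, q4, -, q6⟩ := acts_level hc ht hu ha
  have h5 : lev c (tm c t) w = lev c (tm c t) a := by
    have := (q6 w hb1.le (by omega)).1
    rw [H.uw] at this
    exact this
  rw [H.levt] at h5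
  rw [← h5] at q4
  have hv := H.hv
  have hv' : v = gl c l w + CC c ^ l := hv
  have h6 := gl_le c l a
  omega

/-- (F4R) -/
theorem far_F4R (hc : 10 ≤ c) {K K' : ℕ} (ht : 6 ≤ epo c K') (hKK : K' ≤ K) {d : Desc}
    (h : Occ c K d) (hR : d.IsR) (h1 : wb c K' < d.hi c) (h2 : d.hi c ≤ K') :
    (∃ b v, d = .RTh b v ∧ wb c K' ≤ b ∧ v = b + nb c b) ∨
    (10 * CC c + 5) * (d.hi c - min d.lo (wb c K')) ≤ 10 * CC c * (K - K') := by
  have htK : 6 ≤ epo c K := ht.trans (epo_mono hKK)
  have hCC := CC_ge hc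
  obtain ⟨w, l, H⟩ := exists_RZ hc htK h hR
  have hW := Wd_pos c w
  have hw := H.hw
  have hip := H.ipv
  have hwlo := H.wlo
  have hv := H.hv
  have h3 := lt_wb_add (c := c) hc ht
  have h15 := H.lg15
  have hgw := gl_le c l w
  have h4 : Hb c (wb c K') ≤ CC c ^ j0 c w := by
    have h5 : j0 c (wb c K') ≤ j0 c (d.hi c - 1) := j0_mono (by omega)
    have h6 : j0 c (d.hi c - 1) = j0 c w := by
      unfold j0; rw [H.ep_eq hc (s := d.hi c - 1) (by omega) (by omega)]
    exact pow_le c (by omega)
  rcases H.nb with h5 | ⟨h5, h6⟩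
  · -- newborn cell
    have hjn := jn_le_j0 c w
    have hA : CC c ^ l ≤ CC c ^ j0 c w := pow_le c (by omega)
    -- `wb K'` is at most the bottom of the cell
    have h7 : wb c K' ≤ gl c l w := by
      by_contra hn
      push Not at hn
      have h8 := (wb_spec' (c := c) (t := K') (by omega)).1
      have h9 : gl c l (wb c K' - 1) = gl c l w :=
        Helper29.ETK.gl_eq (dvd_gl _ _ _) (by omega) (by omega)
      have h10 : jn c (wb c K' - 1) = l := by
        rw [h5] at h9 ⊢
        exact (jn_cell hc (by omega) h9.symm).1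
      unfold nb at h8
      rw [h10] at h8
      exact no_mult (c := c) (k := l) (b := w) h8 (by omega) (by omega)
    by_cases h8 : gl c l w < d.Im c
    · right
      have h9 := newborn_touched hc htK H h5 h8
      have hmin : min d.lo (wb c K') = wb c K' := by omega
      rw [hmin]
      -- `X < 3 H`, `D ≥ X + H`
      set X := d.hi c - wb c K' with hX
      set A := CC c ^ j0 c w with hAA
      have h10 : X < 3 * A := by omega
      have h11 : X + A ≤ K - K' := by omega
      calc (10 * CC c + 5) * X = 10 * CC c * X + 5 * X := by ring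
        _ ≤ 10 * CC c * X + 10 * CC c * A := by
          have : 15 * A ≤ 10 * CC c * A := Nat.mul_le_mul_right _ (by omega)
          omega
        _ = 10 * CC c * (X + A) := by ring
        _ ≤ _ := Nat.mul_le_mul_left _ h11
    · left
      push Not at h8
      obtain ⟨r0, r1, hd⟩ := h
      cases d with
      | P g e => exact absurd hR (by simp [Desc.IsR])
      | PT g b => exact absurd hR (by simp [Desc.IsR])
      | RTh b v =>
        have e : w = b := H.w_eq hc rfl rfl
        have e2 : gl c l w = w := by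
          have : (Desc.RTh b v).Im c = b := rfl
          omega
        refine ⟨b, v, rfl, ?_, ?_⟩
        · rw [← e]; omega
        · have h9 : v = gl c l w + CC c ^ l := hv
          rw [h9, e2, ← e, h5]
          rfl
      | RT b v =>
        exfalso
        have := RT_bottom hc htK hd H
        have e3 : (Desc.RT b v).Im c = b := rfl
        omega
      | R b v =>
        exfalso
        have e3 : (Desc.R b v).Im c = b := rfl
        have e4 : (Desc.R b v).Ip c = b := rfl
        omega
      | RS g b v =>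
        exfalso
        have e3 : (Desc.RS g b v).Im c = b + Wd c b := rfl
        have e4 : (Desc.RS g b v).Ip c = b + Wd c b := rfl
        omega
  · right
    obtain ⟨q, q1, q2, q3, q4, q5⟩ := H.down h5 h6
    have h7 : CC c ^ j0 c w ≤ CC c ^ (l - 1) := pow_le c (by omega)
    set B := CC c ^ (l - 1) with hB
    rcases Nat.le_total d.lo (wb c K') with h8 | h8
    · rw [min_eq_left h8]
      have h9 : (d.hi c - w) + q ≤ K - K' := by omega
      calc (10 * CC c + 5) * (d.hi c - d.lo) ≤ (10 * CC c + 10) * (d.hi c - w) :=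
            Nat.mul_le_mul (by omega) (by omega)
        _ = 10 * CC c * (d.hi c - w) + 10 * (d.hi c - w) := by ring
        _ ≤ 10 * CC c * (d.hi c - w) + 10 * (CC c * q) := by omega
        _ = 10 * CC c * ((d.hi c - w) + q) := by ring
        _ ≤ _ := Nat.mul_le_mul_left _ h9
    · rw [min_eq_right h8]
      set X := d.hi c - wb c K' with hX
      have h10 : X < 3 * B := by omega
      have h11 : X + 3 * B ≤ K - K' := by omega
      calc (10 * CC c + 5) * X ≤ (20 * CC c) * X := Nat.mul_le_mul_right _ (by omega)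
        _ = 10 * CC c * (X + X) := by ring
        _ ≤ _ := Nat.mul_le_mul_left _ (by omega)

/-- (F5P) -/
theorem far_F5P (hc : 10 ≤ c) {K : ℕ} (ht : 6 ≤ epo c K) {d : Desc}
    (h : Occ c K d) (hP : d.IsP) :
    ∃ l, 1 ≤ l ∧ d.hi c - d.lo ≤ CC c ^ l ∧
      d.hi c + 5 * CC c ^ (l - 1) ≤ K ∧ (0 < d.lo → Hb c d.lo ≤ CC c ^ (l - 1)) ∧
      (d.lo = 0 → CC c ^ (l - 1) ≤ d.hi c) ∧
      (12 ≤ lg c (d.hi c - 1) → Hb c (d.hi c - 1) ≤ CC c ^ (l - 1)) := by
  have H := PZ_of hc ht h hP
  have hlt := H.lt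
  obtain ⟨s, hs⟩ : ∃ s, s = d.hi c - 1 := ⟨_, rfl⟩
  have hk := H.up s (by omega) (by omega)
  have huhi := H.uhi
  rw [← hs] at huhi
  obtain ⟨l, h1, h2, h3, h4, h5⟩ := K3' hc ht hk
  rw [huhi] at h4 h5
  have h6 := le_sl c (d.hi c - d.lo)
  have h0 : d.lo = 0 → l = lg c s + 1 := by
    intro h0
    rcases Nat.lt_or_ge l (lg c s + 1) with h7 | h7
    · exfalso
      rcases Nat.eq_zero_or_pos s with h8 | h8
      · -- `s = 0`
        have h9 := lt_wb_add (c := c) hc ht
        obtain ⟨t0, ht0, hp0, hg0⟩ := kid_P_spec hk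
        obtain ⟨ht5, -, -, -⟩ := epo_of_tm hc ht ht0
        rw [h8] at h7
        have h10 : lg c 0 = 0 := by simp [lg]
        rw [h10] at h7
        have h11 : l = 0 := by omega
        -- the end of the unit of `0` is `1 ≤ gl 0 0 + 1`
        have h12 := H.wbv
        have h13 : d.hi c = 1 := by omega
        -- then the run ends at `1`, which is impossible since `kid 1 = P 0` too
        have h14 : kid c K 0 = kidP c K 0 := kid_small hc ht (by omega)
        have hKbig : 16 ≤ K := by
          have h16 := epo_lower (c := c) (t := K) rfl (by omega)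
          have h17 : CC c ^ 1 ≤ CC c ^ (3 * epo c K + 1) := pow_le c (by omega)
          have := CC_ge hc
          rw [pow_one] at h17
          omega
        have h15 : kid c K 1 = kidP c K 0 := kid_small hc ht (by omega)
        obtain ⟨r0, r1, hd⟩ := h
        have hlw : 18 ≤ lg c (wb c K) := lg_wb hc ht
        cases d with
        | P g e =>
          obtain ⟨-, -, k1, k2, k3, k4⟩ := hd
          have e1 : e = 1 := h13
          have e2 : g = 0 := h0
          rcases k4 with k4 | k4
          · rw [← k4, e1] at hlw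
            simp [lg] at hlw
          · apply k4
            rw [e1, e2, h15, ← h14]
            exact k3 0 (by omega) (by omega) |>.trans (by rw [e2])
        | PT g b =>
          obtain ⟨-, -, k1, k2, k3, k4, k5⟩ := hd
          have e1 : b + Wd c b = 1 := h13
          have := Wd_pos c b
          obtain ⟨-, hb2, -, -, -, -⟩ := PT_spec (k4 b k1 (by omega))
          omega
        | R b v => exact absurd hP (by simp [Desc.IsP])
        | RT b v => exact absurd hP (by simp [Desc.IsP])
        | RTh b v => exact absurd hP (by simp [Desc.IsP])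
        | RS g b v => exact absurd hP (by simp [Desc.IsP])
      · have := gl_pos (c := c) (l := l) (s := s) (by omega) (by omega)
        omega
    · omega
  refine ⟨l, ?_, by omega, ?_, ?_, ?_, ?_⟩
  · rcases Nat.eq_zero_or_pos d.lo with h7 | h7
    · have := h0 h7; omega
    · obtain ⟨h15, l', -, h8, -⟩ := P_level hc ht hk h7
      have := h3 (by omega)
      omega
  · omega
  · intro h7
    obtain ⟨h15, l', -, h8, h9, -⟩ := P_level hc ht hk h7
    have h10 := h3 (by omega)
    have h11 : j0 c d.lo ≤ j0 c s := j0_mono (by omega)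
    exact pow_le c (by omega)
  · intro h7
    rw [h0 h7, Nat.add_sub_cancel]
    rcases Nat.eq_zero_or_pos s with h8 | h8
    · rw [h8]
      have : lg c 0 = 0 := by simp [lg]
      rw [this]; simp; omega
    · have := lg_le c (s := s) (by omega)
      omega
  · intro h7
    rw [← hs] at h7 ⊢
    have := h3 h7
    exact pow_le c (by omega)

/-- (F7) -/
theorem far_F7 (hc : 10 ≤ c) {K K' : ℕ} (ht : 6 ≤ epo c K') (hKK : K' ≤ K) {d : Desc}
    (h : Occ c K d) (hP : d.IsP) (h2 : K' < d.hi c) :
    10 * (K' - wb c K') ≤ 9 * (K - K') := by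
  have htK : 6 ≤ epo c K := ht.trans (epo_mono hKK)
  obtain ⟨l, h3, h4, h5, -, -, h6⟩ := far_F5P hc htK h hP
  have h7 := lt_wb_add (c := c) hc ht
  have h8 := wb_le (c := c) hc ht
  have h9 : 12 ≤ lg c (d.hi c - 1) := by
    have h10 := lg_of_epo (c := c) (t := K') rfl (by omega)
    have h11 := lg_mono (c := c) (show K' ≤ d.hi c - 1 by omega)
    omega
  have h10 := h6 h9
  have h11 : Hb c (wb c K') ≤ Hb c (d.hi c - 1) := pow_le c (j0_mono (by omega))
  omega

lemma gth_le (hc : 10 ≤ c) {K : ℕ} (ht : 6 ≤ epo c K) : 1000 * gth c K ≤ K ∧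
    ∀ x, K ≤ 2 * x → gth c K ≤ Hb c x := by
  have h1 := Gq_le c (epo c K - 1)
  have h2 : Tq c (epo c K - 1) ≤ Tq c (epo c K) := Tq_mono hc (by omega) (by omega)
  have h3 := Tq_small hc (t := K) (by omega)
  constructor
  · unfold gth
    omega
  · intro x hx
    have h4 : lg c K ≤ lg c x + 1 := by
      have h8 : x < CC c ^ (lg c x + 1) := lt_lg hc x
      have h9 : K < CC c ^ (lg c x + 2) := by
        calc K ≤ 2 * x := hx
          _ < CC c * CC c ^ (lg c x + 1) := by
            have := CC_ge hc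
            calc 2 * x ≤ CC c * x := Nat.mul_le_mul_right _ (by omega)
              _ < _ := Nat.mul_lt_mul_of_pos_left h8 (by omega)
          _ = CC c ^ (lg c x + 2) := by ring
      have := lg_lt (c := c) (l := lg c x + 2) (by omega) h9
      omega
    have h5 : 128 * Tq c (epo c K - 1) = CC c ^ (epo c K - 1 - 1) := Tq_eq hc (by omega)
    have h6 : CC c ^ (epo c K - 1 - 1) ≤ Hb c x := by
      apply pow_le c
      unfold epo j0 ep
      omega
    unfold gth
    omega

/-- (F8) -/
theorem far_F8 (hc : 10 ≤ c) {K : ℕ} (ht : 6 ≤ epo c K) {d : Desc}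
    (h : Occ c K d) : d.hi c + 2 * gth c K ≤ K := by
  obtain ⟨g1, g2⟩ := gth_le hc ht
  by_cases hP : d.IsP
  · obtain ⟨l, h3, h4, h5, -, -, h6⟩ := far_F5P hc ht h hP
    rcases Nat.lt_or_ge (2 * (d.hi c - 1)) K with h7 | h7
    · omega
    · have h8 := g2 (d.hi c - 1) (by omega)
      have h9 : 12 ≤ lg c (d.hi c - 1) := by
        have h10 := lg_of_epo (c := c) (t := K) rfl (by omega)
        have h11 := lg_mono (c := c) (show K ≤ 8 * (d.hi c - 1) by omega)
        have h12 := lg_eight hc (d.hi c - 1)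
        omega
      have := h6 h9
      omega
  · have hR : d.IsR := by
      cases d <;> simp [Desc.IsP, Desc.IsR] at hP ⊢
    obtain ⟨w, l, H⟩ := exists_RZ hc ht h hR
    obtain ⟨-, h2⟩ := H.F5 hc
    have hW := Wd_pos c w
    have hw := H.hw
    have hip := H.ipv
    have h3 : Hb c (d.hi c - 1) = Hb c w := by
      unfold Hb j0; rw [H.ep_eq hc (s := d.hi c - 1) (by omega) (by omega)]
    rcases Nat.lt_or_ge (2 * (d.hi c - 1)) K with h7 | h7
    · omega
    · have h8 := g2 (d.hi c - 1) (by omega)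
      omega

end Pool.Agent.Helper99.ETK
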