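import Mathlib
import Pool.Agent.Helper99.ETK.FarK6
import Pool.Agent.Helper29.ETK.Far3

/-!
# E-T (MP_12a1af_nt), project T*: the kinematic facts for far pairs, assembly
-/

namespace Pool.Agent.Helper99.ETK

open Pool.Agent.Helper29.ETK
open Pool.Agent.ETS (Desc IsDesc Occ KidOK ddist FarKin)

variable {c : ℕ}

/-- **All kinematic facts for two times `K' ≤ K`.** -/
theorem farKin (hc : 10 ≤ c) {K K' : ℕ} (ht : 6 ≤ epo c K') (hKK : K' ≤ K) : FarKin c K K' where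
  wbK' := wb_le hc ht
  wbK := wb_le hc (ht.trans (epo_mono hKK))
  lamR _ _ h h' hR _ := far_lamR hc ht hKK h h' hR
  lamP _ _ h h' hP _ := far_lamP hc ht hKK h h' hP
  F1 := farF1 hc ht hKK
  F1P := farF1P hc ht hKK
  F2 _ _ h h' hR hP hle := far_F2 hc ht hKK h h' hR hP hle
  F2L d d' h h' hR hP hlo hle := by
    refine le_trans (Nat.mul_le_mul_right _ ?_) (far_F2L hc ht hKK h h' hR hP hlo hle)
    omega
  F2R _ _ h h' hR hR' hlt := far_F2R hc ht hKK h h' hR hR' hlt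
  F3 _ _ h h' hR hR' heq := far_F3 hc ht hKK h h' hR hR' heq
  F4P := farF4P hc ht hKK
  F4R _ h hR h1 h2 := far_F4R hc ht hKK h hR h1 h2
  F5R _ h hR := far_F5R hc (ht.trans (epo_mono hKK)) h hR
  F5P _ h hP := by
    obtain ⟨l, h1, h2, h3, h4, h5, -⟩ := far_F5P hc (ht.trans (epo_mono hKK)) h hP
    exact ⟨l, h1, h2, h3, h4, h5⟩
  F6 _ _ h h' hP hR hlo := far_F6 hc ht hKK h h' hP hR hlo
  F7 _ h hP _ h2 := far_F7 hc ht hKK h hP h2
  F8 _ h := far_F8 hc (ht.trans (epo_mono hKK)) h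

end Pool.Agent.Helper99.ETK
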